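import Mathlib
import Pool.Agent.H14.Ham

set_option autoImplicit false

namespace Pool.Agent.Results.MP_9038fc_co.Gap

open Pool.Agent.H14.Ham

theorem result : ¬ ∀ n : ℕ, 1 ≤ n → ∀ h : ℕ, h ≤ hmax n →
    ∃ A : Fin n → Fin n → Prop, IsTournament A ∧ (circuits A).ncard = h := by
  intro H
  obtain ⟨A, hA, h⟩ := H 7 (by norm_num) 23 (le_trans (by norm_num) le_hmax)
  exact ne23 A hA h

end Pool.Agent.Results.MP_9038fc_co.Gap
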